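import Pool.Agent.R943.Pla.Iso
import Pool.Agent.R943.Pla.Cof
set_option autoImplicit false

/-!
# Plastic dense subgroups of the line of size below the continuum

It is shown that it is not provable in ZFC that dense subgroups of `ℝ` of size less than the
continuum are not plastic: if `cof(𝓝) = ℵ₁ < 𝔠` (cofinality of the ideal of Lebesgue null sets;
this holds in Sacks' model), then some dense subgroup of size `ℵ₁ < 𝔠` is plastic. More generally
the subgroup generated by any uncountable set of reals all of whose finite powers are Sierpiński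
sets (such sets of size `ℵ₁ < 𝔠` also exist after adding `ℵ₁` random reals to a model of `ℵ₁ < 𝔠`)
is dense and plastic.

Outline. Let `G` be generated by `A` and extend a non-expansive injection `f : G → G` to a
`1`-Lipschitz map `h` of the line. If `f (a + g) ∈ G` involved another generator besides `a` and
countably many fixed ones, a tuple of generators would lie in the null set given by the equation
`h (v₀ + g) = c v₀ + ∑ d_j v_j + y`; so `h u = c u + y` with `c ∈ ℤ` and countably many values of
`y ∈ G`, first for `u = a + g`, and then for almost all real `u`, since every set of positive measure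
meets `G`. On a set of positive measure `|c| ≤ 1` since `h` is `1`-Lipschitz and `c ≠ 0` since `f` is
injective. The images under `h` of the pieces on which `h` is `u ↦ ± u + y` are almost disjoint, as
`G` meets every set of positive measure and `f` is injective; so `h` maps an interval onto an
interval that is not shorter, and `f` is an isometry.
-/

namespace Pool.Agent.Results.MP_f5469c_gt.PlasticSmallSubgroup

open MeasureTheory Set Cardinal

/-- A metric space is plastic if every non-expansive bijection of it onto itself is an isometry. -/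
def Plastic (X : Type) [MetricSpace X] : Prop :=
  ∀ f : X → X, Function.Bijective f → (∀ x y, dist (f x) (f y) ≤ dist x y) →
    ∀ x y, dist (f x) (f y) = dist x y

/-- The ideal of Lebesgue null sets has cofinality at most `ℵ₁`: in each dimension `n` there are at
most `ℵ₁` null sets such that every null set is contained in one of them. -/
def CofNullLe : Prop :=
  ∀ n : ℕ, ∃ F : Set (Set (Fin n → ℝ)), #F ≤ ℵ₁ ∧ (∀ M ∈ F, volume M = 0) ∧
    ∀ N : Set (Fin n → ℝ), volume N = 0 → ∃ M ∈ F, N ⊆ M

/-- An uncountable set of reals all of whose finite powers are Sierpiński sets: for every null set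
`N` of `ℝⁿ` there is a countable set `D` such that no `n`-tuple of different elements of `A \ D`
belongs to `N`. -/
def StrongSierpinski (A : Set ℝ) : Prop :=
  ¬ A.Countable ∧ ∀ (n : ℕ) (N : Set (Fin n → ℝ)), volume N = 0 →
    ∃ D : Set ℝ, D.Countable ∧ ∀ t : Fin n → ℝ, Function.Injective t → (∀ i, t i ∈ A \ D) → t ∉ N

theorem powersS {A : Set ℝ} (hA : StrongSierpinski A) : Pool.Agent.R943.Pla.PowersS A := by
  intro n N hN
  obtain ⟨D, hD, h⟩ := hA.2 n N hN
  refine ⟨D ∩ A, hD.mono inter_subset_left, inter_subset_right, fun t ht htA => ?_⟩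
  exact h t ht fun i => ⟨(htA i).1, fun hi => (htA i).2 ⟨hi, (htA i).1⟩⟩

theorem card_closure {A : Set ℝ} (hA : #A = ℵ₁) : #(AddSubgroup.closure A) = ℵ₁ := by
  apply le_antisymm
  · have h1 : (AddSubgroup.closure A : Set ℝ) ⊆
        range (fun c : A →₀ ℤ => c.sum fun a k => (k : ℝ) * a) := by
      intro z hz
      rw [SetLike.mem_coe] at hz
      induction hz using AddSubgroup.closure_induction with
      | mem x hx => exact ⟨Finsupp.single ⟨x, hx⟩ 1, by simp⟩
      | zero => exact ⟨0, by simp⟩
      | add x y _ _ hx hy =>
        obtain ⟨c, hc⟩ := hx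
        obtain ⟨d, hd⟩ := hy
        refine ⟨c + d, ?_⟩
        simp only at hc hd ⊢
        rw [Finsupp.sum_add_index', hc, hd]
        · simp
        · intro a k l; push_cast; ring
      | neg x _ hx =>
        obtain ⟨c, hc⟩ := hx
        refine ⟨-c, ?_⟩
        simp only at hc ⊢
        rw [Finsupp.sum_neg_index (by simp), ← hc, Finsupp.sum, Finsupp.sum,
          ← Finset.sum_neg_distrib]
        refine Finset.sum_congr rfl fun a _ => ?_
        push_cast; ring
    have h2 : #(A →₀ ℤ) ≤ ℵ₁ := by
      have hinf : Infinite A := by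
        rw [infinite_iff, hA]
        exact aleph0_le_aleph 1
      rw [mk_finsupp_of_infinite, hA, mk_int]
      exact max_le le_rfl (aleph0_le_aleph 1)
    exact (mk_le_mk_of_subset h1).trans (mk_range_le.trans h2)
  · rw [← hA]
    exact mk_le_mk_of_subset AddSubgroup.subset_closure

/-- **Plastic dense subgroups of size less than the continuum.**
1. If `cof(𝓝) = ℵ₁ < 𝔠`, then there is a dense subgroup `G` of `ℝ` of size `ℵ₁ < 𝔠` which is plastic;
   even all non-expansive injections `G → G` are isometries.
2. In ZFC: if all finite powers of the uncountable set `A` are Sierpiński sets, the subgroup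
   generated by `A` is dense and all non-expansive injections of it into itself are isometries, so
   it is plastic; and its size is `ℵ₁` if `A` has size `ℵ₁`. -/
theorem result :
    ((ℵ₁ : Cardinal.{0}) < 𝔠 → CofNullLe → ∃ G : AddSubgroup ℝ, Dense (G : Set ℝ) ∧ #G = ℵ₁ ∧ #G < 𝔠 ∧ Plastic G ∧
      ∀ f : G → G, Function.Injective f → (∀ x y, dist (f x) (f y) ≤ dist x y) → Isometry f) ∧
    (∀ A : Set ℝ, StrongSierpinski A → Dense (AddSubgroup.closure A : Set ℝ) ∧
      Plastic (AddSubgroup.closure A) ∧
      (∀ f : AddSubgroup.closure A → AddSubgroup.closure A, Function.Injective f →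
        (∀ x y, dist (f x) (f y) ≤ dist x y) → Isometry f) ∧
      (#A = ℵ₁ → #(AddSubgroup.closure A) = ℵ₁)) := by
  have h2 : ∀ A : Set ℝ, StrongSierpinski A → Dense (AddSubgroup.closure A : Set ℝ) ∧
      Plastic (AddSubgroup.closure A) ∧
      (∀ f : AddSubgroup.closure A → AddSubgroup.closure A, Function.Injective f →
        (∀ x y, dist (f x) (f y) ≤ dist x y) → Isometry f) ∧
      (#A = ℵ₁ → #(AddSubgroup.closure A) = ℵ₁) := by
    intro A hA
    refine ⟨Pool.Agent.R943.Pla.dense_closure hA.1, ?_, ?_, card_closure⟩
    · intro f hf hd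
      exact Pool.Agent.R943.Pla.isometry_of hA.1 (powersS hA) _ rfl f hf.injective hd
    · intro f hf hd
      exact Isometry.of_dist_eq
        (Pool.Agent.R943.Pla.isometry_of hA.1 (powersS hA) _ rfl f hf hd)
  refine ⟨fun hc hcof => ?_, h2⟩
  obtain ⟨A, hA1, hA2⟩ := Pool.Agent.R943.Pla.exists_of_cof hcof
  have hS : StrongSierpinski A := by
    refine ⟨fun h => ?_, fun n N hN => ?_⟩
    · have h3 : #A ≤ ℵ₀ := le_aleph0_iff_set_countable.2 h
      rw [hA1] at h3
      exact absurd h3 (not_le.2 aleph0_lt_aleph_one)
    · obtain ⟨D, hD1, -, hD2⟩ := hA2 n N hN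
      exact ⟨D, hD1, hD2⟩
  obtain ⟨h3, h4, h5, h6⟩ := h2 A hS
  exact ⟨AddSubgroup.closure A, h3, h6 hA1, (h6 hA1).trans_lt hc, h4, h5⟩

end Pool.Agent.Results.MP_f5469c_gt.PlasticSmallSubgroup
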